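import Mathlib

set_option autoImplicit false

/-!
# Newton-Kantorovich on a closed subspace

The estimates are only needed on a closed subspace `K` which the iteration preserves.
-/

namespace Pool.MP_ce2c94_gt.H95

variable {W E : Type*} [NormedAddCommGroup W] [NormedSpace ℝ W] [CompleteSpace W]
  [NormedAddCommGroup E] [NormedSpace ℝ E]

open Metric

/-- **Newton-Kantorovich with an approximate right inverse, on closed subspaces.** `A` is the
approximate right inverse, `L0` the approximate linearization, `F` the map. -/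
theorem exists_zero_on (K : Submodule ℝ W) (hK : IsClosed (K : Set W)) (K' : Submodule ℝ E)
    (A : W → E) (L0 : E → W) (F : E → W) {α z ε Y r : ℝ}
    (hα : 0 ≤ α) (hε : 0 ≤ ε) (hz0 : 0 ≤ z) (hr : 0 ≤ r)
    (hAK : ∀ y ∈ K, A y ∈ K') (hFK : ∀ φ ∈ K', F φ ∈ K)
    (hAsub : ∀ y ∈ K, ∀ y' ∈ K, A (y - y') = A y - A y')
    (hA : ∀ y ∈ K, ‖A y‖ ≤ α * ‖y‖)
    (hz : ∀ y ∈ K, ‖y - L0 (A y)‖ ≤ z * ‖y‖)
    (hF : ∀ φ ∈ K', ∀ ψ ∈ K', ‖φ‖ ≤ α * r → ‖ψ‖ ≤ α * r →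
      ‖F φ - F ψ - L0 (φ - ψ)‖ ≤ ε * ‖φ - ψ‖)
    (hY : ‖F 0‖ ≤ Y) (h1 : Y + (z + ε * α) * r ≤ r) (h2 : z + ε * α < 1) :
    ∃ y ∈ K, ‖y‖ ≤ r ∧ A y ∈ K' ∧ ‖A y‖ ≤ α * r ∧ F (A y) = 0 := by
  have hk : 0 ≤ z + ε * α := add_nonneg hz0 (mul_nonneg hε hα)
  have hA0 : A 0 = 0 := by
    have h3 := hA 0 K.zero_mem
    rw [norm_zero, mul_zero] at h3
    exact norm_le_zero_iff.1 h3
  have bd : ∀ {y : W}, y ∈ K → ‖y‖ ≤ r → ‖A y‖ ≤ α * r := fun hy h =>
    (hA _ hy).trans (mul_le_mul_of_nonneg_left h hα)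
  have lip : ∀ {y y' : W}, y ∈ K → y' ∈ K → ‖y‖ ≤ r → ‖y'‖ ≤ r →
      ‖(y - F (A y)) - (y' - F (A y'))‖ ≤ (z + ε * α) * ‖y - y'‖ := by
    intro y y' hyK hyK' hy hy'
    have h3 : (y - F (A y)) - (y' - F (A y')) =
        ((y - y') - L0 (A (y - y'))) - (F (A y) - F (A y') - L0 (A y - A y')) := by
      rw [hAsub y hyK y' hyK']
      abel
    have h4 := hF (A y) (hAK y hyK) (A y') (hAK y' hyK') (bd hyK hy) (bd hyK' hy')
    have h5 : ‖A y - A y'‖ ≤ α * ‖y - y'‖ := by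
      rw [← hAsub y hyK y' hyK']
      exact hA _ (K.sub_mem hyK hyK')
    calc ‖(y - F (A y)) - (y' - F (A y'))‖
        ≤ ‖(y - y') - L0 (A (y - y'))‖ + ‖F (A y) - F (A y') - L0 (A y - A y')‖ := by
          rw [h3]
          exact norm_sub_le _ _
      _ ≤ z * ‖y - y'‖ + ε * (α * ‖y - y'‖) :=
          add_le_add (hz _ (K.sub_mem hyK hyK'))
            (h4.trans (mul_le_mul_of_nonneg_left h5 hε))
      _ = (z + ε * α) * ‖y - y'‖ := by ring
  have hs : IsClosed ((K : Set W) ∩ closedBall 0 r) := hK.inter isClosed_closedBall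
  have hmaps : Set.MapsTo (fun y => y - F (A y)) ((K : Set W) ∩ closedBall 0 r)
      ((K : Set W) ∩ closedBall 0 r) := by
    rintro y ⟨hyK, hy⟩
    rw [mem_closedBall_zero_iff] at hy
    refine ⟨K.sub_mem hyK (hFK _ (hAK y hyK)), ?_⟩
    rw [mem_closedBall_zero_iff]
    have h3 := lip hyK K.zero_mem hy (by rwa [norm_zero])
    rw [hA0, sub_zero] at h3
    have h4 : y - F (A y) = ((y - F (A y)) - (0 - F 0)) - F 0 := by abel
    calc ‖y - F (A y)‖ ≤ ‖(y - F (A y)) - (0 - F 0)‖ + ‖F 0‖ := by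
          conv_lhs => rw [h4]
          exact norm_sub_le _ _
      _ ≤ (z + ε * α) * ‖y‖ + Y := add_le_add h3 hY
      _ ≤ (z + ε * α) * r + Y := by gcongr
      _ ≤ r := by linarith
  have hcontr : ContractingWith (⟨z + ε * α, hk⟩ : NNReal)
      (hmaps.restrict (fun y => y - F (A y)) _ _) := by
    refine ⟨by exact_mod_cast h2, LipschitzWith.of_dist_le_mul ?_⟩
    rintro ⟨y, hyK, hy⟩ ⟨y', hyK', hy'⟩
    rw [mem_closedBall_zero_iff] at hy hy'
    rw [Subtype.dist_eq, Subtype.dist_eq, dist_eq_norm, dist_eq_norm]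
    exact lip hyK hyK' hy hy'
  obtain ⟨y, ⟨hyK, hy⟩, hfix, -⟩ := ContractingWith.exists_fixedPoint' hs.isComplete
    hmaps hcontr (x := 0) ⟨K.zero_mem, by rw [mem_closedBall_zero_iff, norm_zero]; exact hr⟩
    (edist_ne_top _ _)
  rw [mem_closedBall_zero_iff] at hy
  refine ⟨y, hyK, hy, hAK y hyK, bd hyK hy, ?_⟩
  have h3 : y - F (A y) = y := hfix
  have h4 : F (A y) = y - (y - F (A y)) := by abel
  rw [h4, h3, sub_self]

end Pool.MP_ce2c94_gt.H95
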