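import Mathlib

set_option autoImplicit false

/-!
# The polynomial of the shrinker equation in a commutative ring

A vector of three dimensional space is written as `(p, m, z) = (x + i y, x - i y, i z)`. Then
`bd` is twice the scalar product and `dt` is twice the determinant.
-/

namespace Pool.MP_ce2c94_gt.H95

/-- A vector. -/
@[ext]
structure V3 (R : Type*) where
  p : R
  m : R
  z : R

namespace V3

variable {R R' : Type*} [CommRing R] [CommRing R']

instance : Add (V3 R) := ⟨fun a b => ⟨a.p + b.p, a.m + b.m, a.z + b.z⟩⟩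
instance : Zero (V3 R) := ⟨⟨0, 0, 0⟩⟩
instance : Neg (V3 R) := ⟨fun a => ⟨-a.p, -a.m, -a.z⟩⟩
instance : SMul R (V3 R) := ⟨fun c a => ⟨c * a.p, c * a.m, c * a.z⟩⟩

@[simp] theorem add_p (a b : V3 R) : (a + b).p = a.p + b.p := rfl
@[simp] theorem add_m (a b : V3 R) : (a + b).m = a.m + b.m := rfl
@[simp] theorem add_z (a b : V3 R) : (a + b).z = a.z + b.z := rfl
@[simp] theorem zero_p : (0 : V3 R).p = 0 := rfl
@[simp] theorem zero_m : (0 : V3 R).m = 0 := rfl
@[simp] theorem zero_z : (0 : V3 R).z = 0 := rfl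
@[simp] theorem neg_p (a : V3 R) : (-a).p = -a.p := rfl
@[simp] theorem neg_m (a : V3 R) : (-a).m = -a.m := rfl
@[simp] theorem neg_z (a : V3 R) : (-a).z = -a.z := rfl
@[simp] theorem smul_p (c : R) (a : V3 R) : (c • a).p = c * a.p := rfl
@[simp] theorem smul_m (c : R) (a : V3 R) : (c • a).m = c * a.m := rfl
@[simp] theorem smul_z (c : R) (a : V3 R) : (c • a).z = c * a.z := rfl

/-- Twice the scalar product. -/
def bd (a b : V3 R) : R := a.p * b.m + a.m * b.p - 2 * (a.z * b.z)

/-- Twice the determinant. -/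
def dt (a b c : V3 R) : R :=
  a.p * (b.m * c.z - b.z * c.m) + a.m * (b.z * c.p - b.p * c.z) + a.z * (b.p * c.m - b.m * c.p)

/-- Exchange of the first two components: the reflection of `y`. -/
def swap (a : V3 R) : V3 R := ⟨a.m, a.p, a.z⟩

/-- The reflection of `z`. -/
def flz (a : V3 R) : V3 R := ⟨a.p, a.m, -a.z⟩

/-- The image under a ring homomorphism. -/
def map (f : R →+* R') (a : V3 R) : V3 R' := ⟨f a.p, f a.m, f a.z⟩

theorem bd_map (f : R →+* R') (a b : V3 R) : bd (a.map f) (b.map f) = f (bd a b) := by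
  simp only [bd, map, map_add, map_sub, map_mul, map_ofNat]

theorem dt_map (f : R →+* R') (a b c : V3 R) :
    dt (a.map f) (b.map f) (c.map f) = f (dt a b c) := by
  simp only [dt, map, map_add, map_sub, map_mul]

end V3

open V3

/-- The six vectors which enter the equation: the two tangent vectors, the second derivatives and
the position. -/
@[ext]
structure Jt (R : Type*) where
  u : V3 R
  v : V3 R
  a : V3 R
  b : V3 R
  c : V3 R
  w : V3 R

namespace Jt

variable {R R' : Type*} [CommRing R] [CommRing R']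

instance : Add (Jt R) := ⟨fun x y => ⟨x.u + y.u, x.v + y.v, x.a + y.a, x.b + y.b, x.c + y.c,
  x.w + y.w⟩⟩
instance : Zero (Jt R) := ⟨⟨0, 0, 0, 0, 0, 0⟩⟩
instance : SMul R (Jt R) := ⟨fun s x => ⟨s • x.u, s • x.v, s • x.a, s • x.b, s • x.c, s • x.w⟩⟩

@[simp] theorem add_u (x y : Jt R) : (x + y).u = x.u + y.u := rfl
@[simp] theorem add_v (x y : Jt R) : (x + y).v = x.v + y.v := rfl
@[simp] theorem add_a (x y : Jt R) : (x + y).a = x.a + y.a := rfl
@[simp] theorem add_b (x y : Jt R) : (x + y).b = x.b + y.b := rfl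
@[simp] theorem add_c (x y : Jt R) : (x + y).c = x.c + y.c := rfl
@[simp] theorem add_w (x y : Jt R) : (x + y).w = x.w + y.w := rfl
@[simp] theorem zero_u : (0 : Jt R).u = 0 := rfl
@[simp] theorem zero_v : (0 : Jt R).v = 0 := rfl
@[simp] theorem zero_a : (0 : Jt R).a = 0 := rfl
@[simp] theorem zero_b : (0 : Jt R).b = 0 := rfl
@[simp] theorem zero_c : (0 : Jt R).c = 0 := rfl
@[simp] theorem zero_w : (0 : Jt R).w = 0 := rfl
@[simp] theorem smul_u (s : R) (x : Jt R) : (s • x).u = s • x.u := rfl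
@[simp] theorem smul_v (s : R) (x : Jt R) : (s • x).v = s • x.v := rfl
@[simp] theorem smul_a (s : R) (x : Jt R) : (s • x).a = s • x.a := rfl
@[simp] theorem smul_b (s : R) (x : Jt R) : (s • x).b = s • x.b := rfl
@[simp] theorem smul_c (s : R) (x : Jt R) : (s • x).c = s • x.c := rfl
@[simp] theorem smul_w (s : R) (x : Jt R) : (s • x).w = s • x.w := rfl

/-- The image under a ring homomorphism. -/
def map (f : R →+* R') (x : Jt R) : Jt R' :=
  ⟨x.u.map f, x.v.map f, x.a.map f, x.b.map f, x.c.map f, x.w.map f⟩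

/-- The reflection `v ↦ -v`. -/
def sv (x : Jt R) : Jt R :=
  ⟨x.u.swap, -x.v.swap, x.a.swap, -x.b.swap, x.c.swap, x.w.swap⟩

/-- The reflection `u ↦ -u`. -/
def su (x : Jt R) : Jt R :=
  ⟨-x.u.flz, x.v.flz, x.a.flz, -x.b.flz, x.c.flz, x.w.flz⟩

end Jt

section

variable {R R' : Type*} [CommRing R] [CommRing R']

/-- The left hand side of the equation. -/
def FF (x : Jt R) : R :=
  bd x.v x.v * dt x.a x.u x.v - 2 * (bd x.u x.v * dt x.b x.u x.v) + bd x.u x.u * dt x.c x.u x.v +
    (bd x.u x.u * bd x.v x.v - bd x.u x.v * bd x.u x.v) * dt x.w x.u x.v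

/-- The derivative of the determinant of the last two vectors and a third one. -/
def dtd (a u v a' u' v' : V3 R) : R := dt a' u v + dt a u' v + dt a u v'

/-- The derivative of `FF`. -/
def FFd (x y : Jt R) : R :=
  (2 * bd x.v y.v * dt x.a x.u x.v + bd x.v x.v * dtd x.a x.u x.v y.a y.u y.v) -
    2 * ((bd x.u y.v + bd y.u x.v) * dt x.b x.u x.v +
      bd x.u x.v * dtd x.b x.u x.v y.b y.u y.v) +
    (2 * bd x.u y.u * dt x.c x.u x.v + bd x.u x.u * dtd x.c x.u x.v y.c y.u y.v) +
    ((2 * bd x.u y.u * bd x.v x.v + bd x.u x.u * (2 * bd x.v y.v) -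
        2 * bd x.u x.v * (bd x.u y.v + bd y.u x.v)) * dt x.w x.u x.v +
      (bd x.u x.u * bd x.v x.v - bd x.u x.v * bd x.u x.v) * dtd x.w x.u x.v y.w y.u y.v)

theorem bd_comm (a b : V3 R) : bd a b = bd b a := by
  simp only [bd]
  ring

theorem bd_add (a b c : V3 R) : bd a (b + c) = bd a b + bd a c := by
  simp only [bd, add_p, add_m, add_z]
  ring

theorem add_bd (a b c : V3 R) : bd (a + b) c = bd a c + bd b c := by
  simp only [bd, add_p, add_m, add_z]
  ring

theorem bd_smul (s : R) (a b : V3 R) : bd a (s • b) = s * bd a b := by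
  simp only [bd, smul_p, smul_m, smul_z]
  ring

theorem smul_bd (s : R) (a b : V3 R) : bd (s • a) b = s * bd a b := by
  simp only [bd, smul_p, smul_m, smul_z]
  ring

theorem dt_add1 (a b u v : V3 R) : dt (a + b) u v = dt a u v + dt b u v := by
  simp only [dt, add_p, add_m, add_z]
  ring

theorem dt_add2 (a b u v : V3 R) : dt a (b + u) v = dt a b v + dt a u v := by
  simp only [dt, add_p, add_m, add_z]
  ring

theorem dt_add3 (a b u v : V3 R) : dt a b (u + v) = dt a b u + dt a b v := by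
  simp only [dt, add_p, add_m, add_z]
  ring

theorem dt_smul1 (s : R) (a u v : V3 R) : dt (s • a) u v = s * dt a u v := by
  simp only [dt, smul_p, smul_m, smul_z]
  ring

theorem dt_smul2 (s : R) (a u v : V3 R) : dt a (s • u) v = s * dt a u v := by
  simp only [dt, smul_p, smul_m, smul_z]
  ring

theorem dt_smul3 (s : R) (a u v : V3 R) : dt a u (s • v) = s * dt a u v := by
  simp only [dt, smul_p, smul_m, smul_z]
  ring

theorem dtd_add (a u v a' u' v' a'' u'' v'' : V3 R) :
    dtd a u v (a' + a'') (u' + u'') (v' + v'') = dtd a u v a' u' v' + dtd a u v a'' u'' v'' := by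
  simp only [dtd, dt_add1, dt_add2, dt_add3]
  ring

theorem dtd_smul (s : R) (a u v a' u' v' : V3 R) :
    dtd a u v (s • a') (s • u') (s • v') = s * dtd a u v a' u' v' := by
  simp only [dtd, dt_smul1, dt_smul2, dt_smul3]
  ring

/-- The derivative is additive. -/
theorem FFd_add (x y y' : Jt R) : FFd x (y + y') = FFd x y + FFd x y' := by
  simp only [FFd, Jt.add_u, Jt.add_v, Jt.add_a, Jt.add_b, Jt.add_c, Jt.add_w, dtd_add, bd_add,
    add_bd]
  ring

/-- The derivative is homogeneous. -/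
theorem FFd_smul (s : R) (x y : Jt R) : FFd x (s • y) = s * FFd x y := by
  simp only [FFd, Jt.smul_u, Jt.smul_v, Jt.smul_a, Jt.smul_b, Jt.smul_c, Jt.smul_w, dtd_smul,
    bd_smul, smul_bd]
  ring

theorem FF_map (f : R →+* R') (x : Jt R) : FF (x.map f) = f (FF x) := by
  simp only [FF, Jt.map, bd_map, dt_map, map_add, map_sub, map_mul, map_ofNat]

theorem bd_swap (a b : V3 R) : bd a.swap b.swap = bd a b := by
  simp only [bd, swap]
  ring

theorem dt_swap (a b c : V3 R) : dt a.swap b.swap c.swap = -dt a b c := by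
  simp only [dt, swap]
  ring

theorem bd_flz (a b : V3 R) : bd a.flz b.flz = bd a b := by
  simp only [bd, flz]
  ring

theorem dt_flz (a b c : V3 R) : dt a.flz b.flz c.flz = -dt a b c := by
  simp only [dt, flz]
  ring

theorem bd_neg (a b : V3 R) : bd a (-b) = -bd a b := by
  simp only [bd, neg_p, neg_m, neg_z]
  ring

theorem neg_bd (a b : V3 R) : bd (-a) b = -bd a b := by
  simp only [bd, neg_p, neg_m, neg_z]
  ring

theorem dt_neg1 (a u v : V3 R) : dt (-a) u v = -dt a u v := by
  simp only [dt, neg_p, neg_m, neg_z]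
  ring

theorem dt_neg2 (a u v : V3 R) : dt a (-u) v = -dt a u v := by
  simp only [dt, neg_p, neg_m, neg_z]
  ring

theorem dt_neg3 (a u v : V3 R) : dt a u (-v) = -dt a u v := by
  simp only [dt, neg_p, neg_m, neg_z]
  ring

/-- The equation is invariant under the reflection of `v`. -/
theorem FF_sv (x : Jt R) : FF x.sv = FF x := by
  simp only [FF, Jt.sv, bd_neg, neg_bd, dt_neg1, dt_neg3, bd_swap, dt_swap]
  ring

/-- The equation is invariant under the reflection of `u`. -/
theorem FF_su (x : Jt R) : FF x.su = FF x := by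
  simp only [FF, Jt.su, bd_neg, neg_bd, dt_neg1, dt_neg2, bd_flz, dt_flz]
  ring

/-- The polynomial of the equation, sixteen times the true one up to the sign. -/
def QQ (X Xu Xv Xuu Xuv Xvv : V3 R) : R :=
  4 * (bd Xv Xv * dt Xuu Xu Xv - 2 * (bd Xu Xv * dt Xuv Xu Xv) + bd Xu Xu * dt Xvv Xu Xv) +
    (bd Xu Xu * bd Xv Xv - bd Xu Xv * bd Xu Xv) * dt X Xu Xv

/-- The scaling. -/
theorem FF_scale (g m : R) (X Xu Xv Xuu Xuv Xvv : V3 R) :
    FF ⟨m • Xu, m • Xv, (4 * g * m ^ 2) • Xuu, (4 * g * m ^ 2) • Xuv, (4 * g * m ^ 2) • Xvv,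
      g • X⟩ = g * m ^ 6 * QQ X Xu Xv Xuu Xuv Xvv := by
  simp only [FF, QQ, dt_smul1, dt_smul2, dt_smul3, bd_smul, smul_bd]
  ring

end

end Pool.MP_ce2c94_gt.H95
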