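import Mathlib

set_option autoImplicit false

/-!
# Zeros of a nonlinear map with an approximate right inverse of the linearization
-/

namespace Pool.MP_ce2c94_gt.H95

variable {W E : Type*} [NormedAddCommGroup W] [NormedSpace ℝ W] [CompleteSpace W]
  [NormedAddCommGroup E] [NormedSpace ℝ E]

open Metric

omit [CompleteSpace W] in
/-- The contraction estimate for `y ↦ y - F (A y)`. -/
theorem nk_lip (A : W →L[ℝ] E) (L0 : E →L[ℝ] W) (F : E → W) {α z ε r : ℝ}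
    (hA : ∀ y, ‖A y‖ ≤ α * ‖y‖) (hz : ∀ y, ‖y - L0 (A y)‖ ≤ z * ‖y‖) (hε : 0 ≤ ε) (hα : 0 ≤ α)
    (hF : ∀ φ ψ, ‖φ‖ ≤ α * r → ‖ψ‖ ≤ α * r → ‖F φ - F ψ - L0 (φ - ψ)‖ ≤ ε * ‖φ - ψ‖)
    {y y' : W} (hy : ‖y‖ ≤ r) (hy' : ‖y'‖ ≤ r) :
    ‖(y - F (A y)) - (y' - F (A y'))‖ ≤ (z + ε * α) * ‖y - y'‖ := by
  have h1 : (y - F (A y)) - (y' - F (A y')) =
      ((y - y') - L0 (A (y - y'))) - (F (A y) - F (A y') - L0 (A y - A y')) := by
    rw [map_sub A]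
    abel
  have h2 : ‖A y‖ ≤ α * r := (hA y).trans (mul_le_mul_of_nonneg_left hy hα)
  have h3 : ‖A y'‖ ≤ α * r := (hA y').trans (mul_le_mul_of_nonneg_left hy' hα)
  have h4 := hF (A y) (A y') h2 h3
  have h5 : ‖A y - A y'‖ ≤ α * ‖y - y'‖ := by
    rw [← map_sub]
    exact hA _
  calc ‖(y - F (A y)) - (y' - F (A y'))‖
      ≤ ‖(y - y') - L0 (A (y - y'))‖ + ‖F (A y) - F (A y') - L0 (A y - A y')‖ := by
        rw [h1]
        exact norm_sub_le _ _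
    _ ≤ z * ‖y - y'‖ + ε * (α * ‖y - y'‖) :=
        add_le_add (hz _) (h4.trans (mul_le_mul_of_nonneg_left h5 hε))
    _ = (z + ε * α) * ‖y - y'‖ := by ring

/-- **Newton-Kantorovich with an approximate right inverse.** -/
theorem exists_zero (A : W →L[ℝ] E) (L0 : E →L[ℝ] W) (F : E → W) {α z ε Y r : ℝ}
    (hα : 0 ≤ α) (hε : 0 ≤ ε) (hz0 : 0 ≤ z) (hr : 0 ≤ r) (hA : ∀ y, ‖A y‖ ≤ α * ‖y‖)
    (hz : ∀ y, ‖y - L0 (A y)‖ ≤ z * ‖y‖)
    (hF : ∀ φ ψ, ‖φ‖ ≤ α * r → ‖ψ‖ ≤ α * r → ‖F φ - F ψ - L0 (φ - ψ)‖ ≤ ε * ‖φ - ψ‖)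
    (hY : ‖F 0‖ ≤ Y) (h1 : Y + (z + ε * α) * r ≤ r) (h2 : z + ε * α < 1) :
    ∃ y : W, ‖y‖ ≤ r ∧ F (A y) = 0 := by
  have hk : 0 ≤ z + ε * α := add_nonneg hz0 (mul_nonneg hε hα)
  have lip := fun {y y' : W} => nk_lip A L0 F hA hz hε hα hF (y := y) (y' := y')
  have hmaps : Set.MapsTo (fun y => y - F (A y)) (closedBall (0 : W) r) (closedBall 0 r) := by
    intro y hy
    rw [mem_closedBall_zero_iff] at hy ⊢
    have h3 := lip hy (y' := 0) (by rwa [norm_zero])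
    rw [map_zero, sub_zero] at h3
    have h4 : y - F (A y) = ((y - F (A y)) - (0 - F 0)) - F 0 := by abel
    calc ‖y - F (A y)‖ ≤ ‖(y - F (A y)) - (0 - F 0)‖ + ‖F 0‖ := by
          conv_lhs => rw [h4]
          exact norm_sub_le _ _
      _ ≤ (z + ε * α) * ‖y‖ + Y := add_le_add h3 hY
      _ ≤ (z + ε * α) * r + Y := by gcongr
      _ ≤ r := by linarith
  have hcontr : ContractingWith (⟨z + ε * α, hk⟩ : NNReal)
      (hmaps.restrict (fun y => y - F (A y)) (closedBall (0 : W) r) (closedBall 0 r)) := by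
    refine ⟨by exact_mod_cast h2, LipschitzWith.of_dist_le_mul ?_⟩
    rintro ⟨y, hy⟩ ⟨y', hy'⟩
    rw [mem_closedBall_zero_iff] at hy hy'
    rw [Subtype.dist_eq, Subtype.dist_eq, dist_eq_norm, dist_eq_norm]
    exact lip hy hy'
  obtain ⟨y, hy, hfix, -⟩ := ContractingWith.exists_fixedPoint' (isClosed_closedBall.isComplete)
    hmaps hcontr (x := 0) (by rw [mem_closedBall_zero_iff, norm_zero]; exact hr)
    (edist_ne_top _ _)
  refine ⟨y, by rwa [mem_closedBall_zero_iff] at hy, ?_⟩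
  have h3 : y - F (A y) = y := hfix
  have h4 : F (A y) = y - (y - F (A y)) := by abel
  rw [h4, h3, sub_self]

end Pool.MP_ce2c94_gt.H95
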