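import Mathlib

set_option autoImplicit false

/-!
# A calculus for quadratic remainders

`Qd r f f0 L a b c` says: `f 0 = f0`, `‖f0‖ ≤ a`, `‖L x‖ ≤ b ‖x‖`, and
`‖f x - f y - L (x - y)‖ ≤ c ‖x - y‖` for `x`, `y` in the ball of radius `r`.
-/

namespace Pool.MP_ce2c94_gt.H95

variable {E B : Type*} [NormedAddCommGroup E] [NormedCommRing B]

/-- The function `f` with its value at `0`, its linear part and the bounds. -/
structure Qd (r : ℝ) (f : E → B) (f0 : B) (L : E → B) (a b c : ℝ) : Prop where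
  at0 : f 0 = f0
  na : ‖f0‖ ≤ a
  nb : ∀ x, ‖L x‖ ≤ b * ‖x‖
  nc : ∀ x y, ‖x‖ ≤ r → ‖y‖ ≤ r → ‖f x - f y - L (x - y)‖ ≤ c * ‖x - y‖

namespace Qd

variable {r : ℝ} {f g : E → B} {f0 g0 : B} {L M : E → B} {a b c a' b' c' : ℝ}

/-- The ball has positive radius and the space is not trivial, or there is nothing to prove: the
bounds may be assumed to be nonnegative. -/
theorem a_nonneg (h : Qd r f f0 L a b c) : 0 ≤ a := (norm_nonneg _).trans h.na

theorem mono (h : Qd r f f0 L a b c) (ha : a ≤ a') (hb : b ≤ b') (hc : c ≤ c') :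
    Qd r f f0 L a' b' c' where
  at0 := h.at0
  na := h.na.trans ha
  nb := fun x => (h.nb x).trans (mul_le_mul_of_nonneg_right hb (norm_nonneg _))
  nc := fun x y hx hy => (h.nc x y hx hy).trans (mul_le_mul_of_nonneg_right hc (norm_nonneg _))

/-- A better bound for the value at `0`. -/
theorem setA (h : Qd r f f0 L a b c) (ha : ‖f0‖ ≤ a') : Qd r f f0 L a' b c :=
  ⟨h.at0, ha, h.nb, h.nc⟩

/-- A better bound for the linear part. -/
theorem setB (h : Qd r f f0 L a b c) (hb : ∀ x, ‖L x‖ ≤ b' * ‖x‖) : Qd r f f0 L a b' c :=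
  ⟨h.at0, h.na, hb, h.nc⟩

/-- Another expression for the function. -/
theorem congr (h : Qd r f f0 L a b c) (hf : ∀ x, g x = f x) (h0 : g0 = f0)
    (hL : ∀ x, M x = L x) : Qd r g g0 M a b c := by
  obtain rfl : g = f := funext hf
  obtain rfl : M = L := funext hL
  rw [h0]
  exact h

theorem const (f0 : B) (ha : ‖f0‖ ≤ a) : Qd r (fun _ : E => f0) f0 (fun _ => 0) a 0 0 where
  at0 := rfl
  na := ha
  nb := fun x => by rw [norm_zero, zero_mul]
  nc := fun x y _ _ => by rw [sub_self, sub_zero, norm_zero, zero_mul]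

/-- An affine function. -/
theorem aff (f0 : B) (L : E →+ B) (ha : ‖f0‖ ≤ a) (hb : ∀ x, ‖L x‖ ≤ b * ‖x‖) :
    Qd r (fun x : E => f0 + L x) f0 (fun x => L x) a b 0 where
  at0 := by rw [map_zero, add_zero]
  na := ha
  nb := hb
  nc := fun x y _ _ => by
    rw [map_sub, add_sub_add_left_eq_sub, sub_self, norm_zero, zero_mul]

theorem add (h : Qd r f f0 L a b c) (k : Qd r g g0 M a' b' c') :
    Qd r (fun x => f x + g x) (f0 + g0) (fun x => L x + M x) (a + a') (b + b') (c + c') where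
  at0 := by rw [h.at0, k.at0]
  na := (norm_add_le _ _).trans (add_le_add h.na k.na)
  nb := fun x => by
    rw [add_mul]
    exact (norm_add_le _ _).trans (add_le_add (h.nb x) (k.nb x))
  nc := fun x y hx hy => by
    have e : f x + g x - (f y + g y) - (L (x - y) + M (x - y)) =
        (f x - f y - L (x - y)) + (g x - g y - M (x - y)) := by abel
    rw [e, add_mul]
    exact (norm_add_le _ _).trans (add_le_add (h.nc x y hx hy) (k.nc x y hx hy))

theorem neg (h : Qd r f f0 L a b c) :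
    Qd r (fun x => - f x) (- f0) (fun x => - L x) a b c where
  at0 := by rw [h.at0]
  na := by rw [norm_neg]; exact h.na
  nb := fun x => by rw [norm_neg]; exact h.nb x
  nc := fun x y hx hy => by
    have e : - f x - - f y - - L (x - y) = - (f x - f y - L (x - y)) := by abel
    rw [e, norm_neg]
    exact h.nc x y hx hy

theorem sub (h : Qd r f f0 L a b c) (k : Qd r g g0 M a' b' c') :
    Qd r (fun x => f x - g x) (f0 - g0) (fun x => L x - M x) (a + a') (b + b') (c + c') :=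
  (h.add k.neg).congr (fun x => sub_eq_add_neg _ _) (sub_eq_add_neg _ _)
    fun x => sub_eq_add_neg _ _

/-- The distance to the value at `0`. -/
theorem sub_at0 (h : Qd r f f0 L a b c) (hr : 0 ≤ r) {x : E} (hx : ‖x‖ ≤ r) :
    ‖f x - f0‖ ≤ (b + c) * ‖x‖ := by
  have h1 := h.nc x 0 hx (by rwa [norm_zero])
  rw [h.at0, sub_zero] at h1
  have e : f x - f0 = (f x - f0 - L x) + L x := by abel
  calc ‖f x - f0‖ ≤ ‖f x - f0 - L x‖ + ‖L x‖ := by
        conv_lhs => rw [e]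
        exact norm_add_le _ _
    _ ≤ c * ‖x‖ + b * ‖x‖ := add_le_add h1 (h.nb x)
    _ = (b + c) * ‖x‖ := by ring

/-- The Lipschitz bound. -/
theorem lip (h : Qd r f f0 L a b c) {x y : E} (hx : ‖x‖ ≤ r) (hy : ‖y‖ ≤ r) :
    ‖f x - f y‖ ≤ (b + c) * ‖x - y‖ := by
  have h1 := h.nc x y hx hy
  have e : f x - f y = (f x - f y - L (x - y)) + L (x - y) := by abel
  calc ‖f x - f y‖ ≤ ‖f x - f y - L (x - y)‖ + ‖L (x - y)‖ := by
        conv_lhs => rw [e]
        exact norm_add_le _ _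
    _ ≤ c * ‖x - y‖ + b * ‖x - y‖ := add_le_add h1 (h.nb _)
    _ = (b + c) * ‖x - y‖ := by ring

/-- **Products.** -/
theorem mul (h : Qd r f f0 L a b c) (k : Qd r g g0 M a' b' c') (hr : 0 ≤ r) (hb : 0 ≤ b)
    (hc : 0 ≤ c) (hb' : 0 ≤ b') (hc' : 0 ≤ c') :
    Qd r (fun x => f x * g x) (f0 * g0) (fun x => f0 * M x + g0 * L x) (a * a') (a * b' + a' * b)
      (a * c' + a' * c + 2 * r * (b + c) * (b' + c')) where
  at0 := by rw [h.at0, k.at0]
  na := (norm_mul_le _ _).trans (mul_le_mul h.na k.na (norm_nonneg _) h.a_nonneg)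
  nb := fun x => by
    calc ‖f0 * M x + g0 * L x‖ ≤ ‖f0‖ * ‖M x‖ + ‖g0‖ * ‖L x‖ :=
          (norm_add_le _ _).trans (add_le_add (norm_mul_le _ _) (norm_mul_le _ _))
      _ ≤ a * (b' * ‖x‖) + a' * (b * ‖x‖) :=
          add_le_add (mul_le_mul h.na (k.nb x) (norm_nonneg _) h.a_nonneg)
            (mul_le_mul k.na (h.nb x) (norm_nonneg _) k.a_nonneg)
      _ = (a * b' + a' * b) * ‖x‖ := by ring
  nc := fun x y hx hy => by
    have e : f x * g x - f y * g y - (f0 * M (x - y) + g0 * L (x - y)) =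
        (f x - f0) * (g x - g y) + f0 * (g x - g y - M (x - y)) +
          ((f x - f y) * (g y - g0) + g0 * (f x - f y - L (x - y))) := by ring
    have h1 : ‖f x - f0‖ ≤ (b + c) * r :=
      (h.sub_at0 hr hx).trans (mul_le_mul_of_nonneg_left hx (add_nonneg hb hc))
    have h2 : ‖g y - g0‖ ≤ (b' + c') * r :=
      (k.sub_at0 hr hy).trans (mul_le_mul_of_nonneg_left hy (add_nonneg hb' hc'))
    have h3 := k.lip hx hy
    have h4 := h.lip hx hy
    have n1 : 0 ≤ (b + c) * r := mul_nonneg (add_nonneg hb hc) hr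
    have n2 : 0 ≤ (b + c) * ‖x - y‖ := mul_nonneg (add_nonneg hb hc) (norm_nonneg _)
    calc ‖f x * g x - f y * g y - (f0 * M (x - y) + g0 * L (x - y))‖
        ≤ ‖f x - f0‖ * ‖g x - g y‖ + ‖f0‖ * ‖g x - g y - M (x - y)‖ +
          (‖f x - f y‖ * ‖g y - g0‖ + ‖g0‖ * ‖f x - f y - L (x - y)‖) := by
          rw [e]
          refine (norm_add_le _ _).trans (add_le_add ?_ ?_)
          · exact (norm_add_le _ _).trans (add_le_add (norm_mul_le _ _) (norm_mul_le _ _))
          · exact (norm_add_le _ _).trans (add_le_add (norm_mul_le _ _) (norm_mul_le _ _))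
      _ ≤ (b + c) * r * ((b' + c') * ‖x - y‖) + a * (c' * ‖x - y‖) +
          ((b + c) * ‖x - y‖ * ((b' + c') * r) + a' * (c * ‖x - y‖)) := by
          refine add_le_add (add_le_add ?_ ?_) (add_le_add ?_ ?_)
          · exact mul_le_mul h1 h3 (norm_nonneg _) n1
          · exact mul_le_mul h.na (k.nc x y hx hy) (norm_nonneg _) h.a_nonneg
          · exact mul_le_mul h4 h2 (norm_nonneg _) n2
          · exact mul_le_mul k.na (h.nc x y hx hy) (norm_nonneg _) k.a_nonneg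
      _ = (a * c' + a' * c + 2 * r * (b + c) * (b' + c')) * ‖x - y‖ := by ring

/-- Multiplication by a fixed element. -/
theorem cmul (h : Qd r f f0 L a b c) (m : B) {n : ℝ} (hm : ‖m‖ ≤ n) :
    Qd r (fun x => m * f x) (m * f0) (fun x => m * L x) (n * a) (n * b) (n * c) where
  at0 := by rw [h.at0]
  na := (norm_mul_le _ _).trans
    (mul_le_mul hm h.na (norm_nonneg _) ((norm_nonneg _).trans hm))
  nb := fun x => by
    rw [mul_assoc]
    exact (norm_mul_le _ _).trans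
      (mul_le_mul hm (h.nb x) (norm_nonneg _) ((norm_nonneg _).trans hm))
  nc := fun x y hx hy => by
    rw [← mul_sub, ← mul_sub, mul_assoc]
    exact (norm_mul_le _ _).trans
      (mul_le_mul hm (h.nc x y hx hy) (norm_nonneg _) ((norm_nonneg _).trans hm))

/-- Scalar products of vectors with three components. -/
theorem dot {f : Fin 3 → E → B} {f0 : Fin 3 → B} {L : Fin 3 → E → B} {a b c : Fin 3 → ℝ}
    {g : Fin 3 → E → B} {g0 : Fin 3 → B} {M : Fin 3 → E → B} {a' b' c' : Fin 3 → ℝ}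
    (h : ∀ i, Qd r (f i) (f0 i) (L i) (a i) (b i) (c i))
    (k : ∀ i, Qd r (g i) (g0 i) (M i) (a' i) (b' i) (c' i)) (hr : 0 ≤ r) (hb : ∀ i, 0 ≤ b i)
    (hc : ∀ i, 0 ≤ c i) (hb' : ∀ i, 0 ≤ b' i) (hc' : ∀ i, 0 ≤ c' i) :
    Qd r (fun x => f 0 x * g 0 x + f 1 x * g 1 x + f 2 x * g 2 x)
      (f0 0 * g0 0 + f0 1 * g0 1 + f0 2 * g0 2)
      (fun x => (f0 0 * M 0 x + g0 0 * L 0 x) + (f0 1 * M 1 x + g0 1 * L 1 x) +
        (f0 2 * M 2 x + g0 2 * L 2 x))
      (a 0 * a' 0 + a 1 * a' 1 + a 2 * a' 2)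
      ((a 0 * b' 0 + a' 0 * b 0) + (a 1 * b' 1 + a' 1 * b 1) + (a 2 * b' 2 + a' 2 * b 2))
      ((a 0 * c' 0 + a' 0 * c 0 + 2 * r * (b 0 + c 0) * (b' 0 + c' 0)) +
        (a 1 * c' 1 + a' 1 * c 1 + 2 * r * (b 1 + c 1) * (b' 1 + c' 1)) +
        (a 2 * c' 2 + a' 2 * c 2 + 2 * r * (b 2 + c 2) * (b' 2 + c' 2))) :=
  (((h 0).mul (k 0) hr (hb 0) (hc 0) (hb' 0) (hc' 0)).add
    ((h 1).mul (k 1) hr (hb 1) (hc 1) (hb' 1) (hc' 1))).add
      ((h 2).mul (k 2) hr (hb 2) (hc 2) (hb' 2) (hc' 2))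

end Qd

end Pool.MP_ce2c94_gt.H95
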