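import Pool.Agent.H.MP_ce2c94_gt.D3.ExistR

set_option autoImplicit false

namespace Pool.MP_ce2c94_gt.D3E.Tst

open D3W D3S W93

def P : Prm :=
  { a := 23/20, b := 9, s := 100, d0 := 1/100, d1 := 4663/100000, d2 := 1667/100000,
    d3 := 20/23, d4 := 15542/100000, d5 := 1/9 }

def S : Slots :=
  { C := ![(4587/1000, 144/1000), (716/1000, 99/1000), (2099/1000, 143/1000)]
    B := ![(7389/1000, 1758/1000), (8673/1000, 1585/1000), (3084/1000, 1396/1000)]
    a := ![(2012/1000, 319/1000), (516/1000, 165/1000), (1869/1000, 303/1000)]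
    b := ![(1020/1000, 276/1000), (1318/1000, 190/1000), (568/1000, 213/1000)]
    p := ![(11742/1000, 7309/1000), (3563/1000, 3523/1000), (8751/1000, 6899/1000)]
    q := ![(6555/1000, 4421/1000), (4744/1000, 2882/1000), (3916/1000, 3795/1000)]
    w := ![(8304/1000, 6084/1000), (5887/1000, 4237/1000), (3608/1000, 4372/1000)]
    n := ![(1468/1000, 370/1000), (803/1000, 299/1000), (1778/1000, 349/1000)]
    ebb := (1131/1000, 194/1000)
    eab := (108/1000, 43/1000)
    eaa := (1004/1000, 225/1000)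
    ebB := (7588/1000, 1807/1000)
    eaB := (845/1000, 274/1000)
    g := (4736/1000, 2668/1000)
    T := ![(19475/1000, 18622/1000), (9274/1000, 11601/1000), (9781/1000, 16299/1000)] }

theorem c_le : (S.tF (1/1000000)).c ≤ 237 := by decide +kernel

def c : Cst :=
  { P := P, S := S, Y := 2 / 10^10, e := 54 / 1000000, z := 53 / 100, α := 327, r := 1 / 10^9,
    κ := 23/20 }

theorem Pok : P.Ok := by constructor <;> decide +kernel

theorem cnum : c.Num := by
  refine { P := Pok, e0 := ?_, z0 := ?_, α0 := ?_, r0 := ?_, κ0 := ?_, h1 := ?_, h2 := ?_ } <;>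
    decide +kernel

def t : Tl :=
  { K := 25, nG := 174 / 1000, nH := 12 / 10000, n0 := 827 / 10, n1 := 3209 / 1000,
    n2 := 8149 / 1000, n4 := 979 / 1000, Q1 := 232 / 1000, Q2 := 405 / 100, e0 := 24 / 10000,
    e1 := 28 / 100000, e2 := 4 / 10000, e3 := 5 / 1000000, e4 := 9 / 1000000, e5 := 35 / 1000000 }

theorem tnum : t.Num c := by constructor <;> decide +kernel

end Pool.MP_ce2c94_gt.D3E.Tst
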